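import Pool.Agent.Helper11.PP.GoalsE
import Pool.Agent.Helper99.RS.QEX

/-!
# Project PP (MP_fc6b1e_nt, density theorem), part D: finite index (`D_IDX`)
-/

set_option autoImplicit false

namespace Pool.Agent.Helper99.PP

open NumberField IsDedekindDomain Pool.Agent.Helper42.RD Pool.Agent.Helper11.LE
open Pool.Agent.Helper51.SigLeo Pool.Agent.Helper51.RP
open Pool.Agent.Helper11.PP

/-- **D_IDX** from the finite index of the local conditions (`D_TAU`) and `D_NLS`. -/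
theorem d_idx (hN : Pool.Agent.Helper11.PP.D_NLS) (hT : Pool.Agent.Helper11.PP.D_TAU) :
    Pool.Agent.Helper11.PP.D_IDX := by
  intro p _ K K₁ _ _ _ _ _ ε _
  have hp : p.Prime := Fact.out
  have hp0 : (p : K₁) ≠ 0 := Nat.cast_ne_zero.mpr hp.ne_zero
  have hfin : {W : HeightOneSpectrum (𝓞 K₁) | (p : 𝓞 K₁) ∈ W.asIdeal}.Finite := by
    refine (Pool.Agent.Helper99.RS.finite_bad hp0).subset fun W hW ↦ ?_
    have h := (W.valuation_lt_one_iff_mem (K := K₁) (p : 𝓞 K₁)).mpr hW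
    have h2 : W.valuation K₁ (p : K₁) < 1 := by simpa using h
    exact ne_of_lt h2
  obtain ⟨F₀, hF, hu⟩ := hT p K₁ _ hfin {a : K₁ˣ | OmType p K ε (a : K₁)}
  refine ⟨F₀, fun c hc ↦ hF c hc, fun a ha ↦ ?_⟩
  obtain ⟨c, ⟨hc, hl⟩, _⟩ := hu a ha
  exact ⟨c, hc, (hN p K₁ (a / c)).mpr hl⟩

end Pool.Agent.Helper99.PP
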