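import Pool.Agent.Helper41.PP.Sets
import Pool.Agent.Helper41.PP.Zig

/-!
# Many disjoint long links of a cycle give one long path
-/

namespace Pool.Agent.Helper99.PP

open Pool.Agent.Helper41.PP

variable {V : Type} {G : SimpleGraph V} {f : ℕ → V} {N : ℕ} {D : V → Prop} {β : ℕ}

/-- `M` disjoint links of the cycle `f`, with at least `L` inner vertices each. -/
structure LKS (G : SimpleGraph V) (f : ℕ → V) (N : ℕ) (D : V → Prop) (L M : ℕ)
    (x y : ℕ → ℕ) (J : ℕ → List V) : Prop where
  lt : ∀ i < M, x i < y i
  top : ∀ i < M, y i < N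
  path : ∀ i < M, IsP G (f (x i) :: (J i ++ [f (y i)]))
  inD : ∀ i < M, ∀ v ∈ J i, D v
  len : ∀ i < M, L ≤ (J i).length
  disj : ∀ i < M, ∀ j < M, i ≠ j → ∀ v ∈ J i, v ∉ J j
  xx : ∀ i < M, ∀ j < M, i ≠ j → x i ≠ x j
  yy : ∀ i < M, ∀ j < M, i ≠ j → y i ≠ y j
  xy : ∀ i < M, ∀ j < M, i ≠ j → x i ≠ y j

/-- An increasing list of indices gives a sublist of an arc. -/
theorem arc_sublist (f : ℕ → V) : ∀ (m i : ℕ) (l : List ℕ), l.Pairwise (fun a b => a < b) →
    (∀ x ∈ l, i ≤ x ∧ x < i + m) → (l.map f).Sublist (arc f i m) := by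
  intro m
  induction m with
  | zero =>
      intro i l _ h
      cases l with
      | nil => exact List.nil_sublist _
      | cons x l =>
          have := h x List.mem_cons_self
          omega
  | succ m ih =>
      intro i l hl h
      rw [arc_succ]
      cases l with
      | nil => exact List.nil_sublist _
      | cons x l =>
          have hx := h x List.mem_cons_self
          have hl' := List.pairwise_cons.1 hl
          by_cases hxi : x = i
          · subst hxi
            rw [List.map_cons]
            refine List.Sublist.cons_cons _ (ih _ _ hl'.2 ?_)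
            intro z hz
            have h1 := hl'.1 z hz
            have h2 := h z (List.mem_cons_of_mem _ hz)
            omega
          · refine List.Sublist.cons _ (ih _ _ hl ?_)
            intro z hz
            have h2 := h z hz
            rcases List.mem_cons.1 hz with h3 | h3
            · omega
            · have h1 := hl'.1 z h3
              omega

/-- The path through a chain of links with disjoint intervals. -/
theorem chain_path (hper : Per G f N) (hout : ∀ i, ¬ D (f i)) {L M : ℕ} {x y : ℕ → ℕ}
    {J : ℕ → List V} (h : LKS G f N D L M x y J) :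
    ∀ (l : List ℕ) (i : ℕ), (∀ a ∈ i :: l, a < M) → (i :: l).Pairwise (fun a b => y a < x b) →
      ∃ Z : List V, IsP G (f (x i) :: Z) ∧ (l.length + 1) * L ≤ Z.length ∧
        ∀ v ∈ Z, (∃ k, x i < k ∧ k < N ∧ f k = v) ∨ ∃ a ∈ i :: l, v ∈ J a := by
  intro l
  induction l with
  | nil =>
      intro i hi _
      have hiM := hi i List.mem_cons_self
      refine ⟨J i ++ [f (y i)], h.path i hiM, ?_, ?_⟩
      · have := h.len i hiM
        simp only [List.length_nil, List.length_append, List.length_cons]
        omega
      · intro v hv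
        rcases List.mem_append.1 hv with h1 | h1
        · exact Or.inr ⟨i, List.mem_cons_self, h1⟩
        · left
          exact ⟨y i, h.lt i hiM, h.top i hiM, (List.mem_singleton.1 h1).symm⟩
  | cons j l ih =>
      intro i hi hpw
      have hiM := hi i List.mem_cons_self
      have hpw' := List.pairwise_cons.1 hpw
      obtain ⟨Z, hZ1, hZ2, hZ3⟩ := ih j (fun a ha => hi a (List.mem_cons_of_mem _ ha)) hpw'.2
      have hjM := hi j (List.mem_cons_of_mem _ List.mem_cons_self)
      have hyx : y i < x j := hpw'.1 j List.mem_cons_self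
      have hxi := h.lt i hiM
      have hxj := h.lt j hjM
      have hyj := h.top j hjM
      have hp := h.path i hiM
      have hJD := h.inD i hiM
      have harc := hper.arcP (y i) (x j - y i + 1) (by omega)
      have e0 : arc f (y i) (x j - y i + 1) = arc f (y i) (x j - y i) ++ [f (x j)] := by
        rw [arc_succ']
        congr 3
        omega
      rw [e0] at harc
      have e1 : arc f (y i) (x j - y i) = f (y i) :: arc f (y i + 1) (x j - y i - 1) := by
        have e2 : x j - y i = (x j - y i - 1) + 1 := by omega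
        conv_lhs => rw [e2]
        rw [arc_succ]
      -- no vertex of the cycle is in `J`
      have hJf : ∀ a < M, ∀ k, f k ∉ J a := fun a ha k hk => hout k (h.inD a ha _ hk)
      have hmarc : ∀ v ∈ arc f (y i) (x j - y i), ∃ k, y i ≤ k ∧ k < x j ∧ f k = v := by
        intro v hv
        obtain ⟨k, hk, hk2⟩ := mem_arc.1 hv
        exact ⟨y i + k, by omega, by omega, hk2⟩
      have hfne : ∀ a b, a < b → b < N → f a ≠ f b := fun a b hab hb => hper.ne hab (by omega)
      refine ⟨J i ++ (arc f (y i) (x j - y i) ++ f (x j) :: Z), ⟨?_, ?_⟩, ?_, ?_⟩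
      · -- chain
        have c1 := hp.1
        have e3 : f (x i) :: (J i ++ (arc f (y i) (x j - y i) ++ f (x j) :: Z)) =
            (f (x i) :: J i) ++ f (y i) :: (arc f (y i + 1) (x j - y i - 1) ++ f (x j) :: Z) := by
          rw [e1]; simp
        rw [e3, List.isChain_split]
        refine ⟨by simpa using c1, ?_⟩
        have e4 : f (y i) :: (arc f (y i + 1) (x j - y i - 1) ++ f (x j) :: Z) =
            (f (y i) :: arc f (y i + 1) (x j - y i - 1)) ++ f (x j) :: Z := by simp
        rw [e4, List.isChain_split]
        refine ⟨?_, hZ1.1⟩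
        rw [← e1]
        exact harc.1
      · -- no repetition
        have n1 := List.nodup_cons.1 hp.2
        have n2 := List.nodup_append'.1 n1.2
        have n3 := List.nodup_append'.1 harc.2
        have n4 := List.nodup_cons.1 hZ1.2
        have hxZ : ∀ v ∈ f (x j) :: Z, (∃ k, x j ≤ k ∧ k < N ∧ f k = v) ∨ ∃ a ∈ j :: l, v ∈ J a := by
          intro v hv
          rcases List.mem_cons.1 hv with h1 | h1
          · exact Or.inl ⟨x j, le_rfl, by omega, h1.symm⟩
          · rcases hZ3 v h1 with ⟨k, hk1, hk2, hk3⟩ | h2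
            · exact Or.inl ⟨k, by omega, hk2, hk3⟩
            · exact Or.inr h2
        rw [List.nodup_cons, List.nodup_append']
        refine ⟨?_, n2.1, ?_, ?_⟩
        · intro hv
          rcases List.mem_append.1 hv with h1 | h1
          · exact hJf i hiM _ h1
          · rcases List.mem_append.1 h1 with h2 | h2
            · obtain ⟨k, hk1, hk2, hk3⟩ := hmarc _ h2
              exact hfne (x i) k (by omega) (by omega) hk3.symm
            · rcases hxZ _ h2 with ⟨k, hk1, hk2, hk3⟩ | ⟨a, ha, ha2⟩
              · exact hfne (x i) k (by omega) hk2 hk3.symm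
              · exact hJf a (hi a (List.mem_cons_of_mem _ ha)) _ ha2
        · rw [List.nodup_append']
          refine ⟨n3.1, hZ1.2, ?_⟩
          intro v hv hv2
          obtain ⟨k, hk1, hk2, hk3⟩ := hmarc v hv
          rcases hxZ _ hv2 with ⟨k', hk1', hk2', hk3'⟩ | ⟨a, ha, ha2⟩
          · exact hfne k k' (by omega) hk2' (hk3.trans hk3'.symm)
          · rw [← hk3] at ha2
            exact hJf a (hi a (List.mem_cons_of_mem _ ha)) _ ha2
        · intro v hv hv2
          rcases List.mem_append.1 hv2 with h1 | h1
          · obtain ⟨k, hk1, hk2, hk3⟩ := hmarc v h1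
            rw [← hk3] at hv
            exact hJf i hiM _ hv
          · rcases hxZ _ h1 with ⟨k', hk1', hk2', hk3'⟩ | ⟨a, ha, ha2⟩
            · rw [← hk3'] at hv
              exact hJf i hiM _ hv
            · have haM := hi a (List.mem_cons_of_mem _ ha)
              have hne : i ≠ a := by
                intro hia
                have h3 := hpw'.1 a ha
                rw [← hia] at h3
                omega
              exact h.disj i hiM a haM hne v hv ha2
      · have h1 := h.len i hiM
        simp only [List.length_append, List.length_cons, arc_length]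
        have h2 : (l.length + 1 + 1) * L = (l.length + 1) * L + L := by ring
        omega
      · intro v hv
        rcases List.mem_append.1 hv with h1 | h1
        · exact Or.inr ⟨i, List.mem_cons_self, h1⟩
        · rcases List.mem_append.1 h1 with h2 | h2
          · obtain ⟨k, hk1, hk2, hk3⟩ := hmarc v h2
            exact Or.inl ⟨k, by omega, by omega, hk3⟩
          · rcases List.mem_cons.1 h2 with h3 | h3
            · exact Or.inl ⟨x j, by omega, by omega, h3.symm⟩
            · rcases hZ3 v h3 with ⟨k, hk1, hk2, hk3⟩ | ⟨a, ha, ha2⟩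
              · exact Or.inl ⟨k, by omega, hk2, hk3⟩
              · exact Or.inr ⟨a, List.mem_cons_of_mem _ ha, ha2⟩

/-- Either many intervals have a common point or there is a long chain. -/
theorem intervals {M : ℕ} {x y : ℕ → ℕ} (hlt : ∀ i < M, x i < y i)
    (hxy : ∀ i < M, ∀ j < M, i ≠ j → x i ≠ y j) (t : ℕ) : ∀ (n : ℕ) (S : Finset ℕ),
    (∀ i ∈ S, i < M) → n * t ≤ S.card →
      (∃ p, ∃ T : Finset ℕ, T ⊆ S ∧ t ≤ T.card ∧ ∀ i ∈ T, x i ≤ p ∧ p < y i) ∨
      ∃ l : List ℕ, l.length = n ∧ (∀ a ∈ l, a ∈ S) ∧ l.Pairwise (fun a b => y a < x b) := by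
  intro n
  induction n with
  | zero =>
      intro S _ _
      exact Or.inr ⟨[], rfl, fun a ha => absurd ha List.not_mem_nil, List.Pairwise.nil⟩
  | succ n ih =>
      intro S hS hcard
      rcases S.eq_empty_or_nonempty with h0 | h0
      · subst h0
        rw [Finset.card_empty] at hcard
        have ht : t = 0 := by
          have h1 : (n + 1) * t = n * t + t := by ring
          omega
        exact Or.inl ⟨0, ∅, Finset.Subset.refl _, by rw [ht]; exact Nat.zero_le _,
          fun i hi => absurd hi (Finset.notMem_empty _)⟩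
      · obtain ⟨s, hs, hmin⟩ := Finset.exists_min_image S y h0
        by_cases hT : t ≤ (S.filter fun i => x i ≤ y s).card
        · left
          refine ⟨y s - 1, _, Finset.filter_subset _ _, hT, ?_⟩
          intro i hi
          rw [Finset.mem_filter] at hi
          have h1 := hmin i hi.1
          have h2 := hlt s (hS s hs)
          have h3 := hlt i (hS i hi.1)
          by_cases his : i = s
          · subst his
            omega
          · have h4 := hxy i (hS i hi.1) s (hS s hs) his
            omega
        · have h1 := Finset.card_filter_add_card_filter_not (s := S) (fun i => x i ≤ y s)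
          have h2 : n * t ≤ (S.filter fun i => ¬ x i ≤ y s).card := by
            have h3 : (n + 1) * t = n * t + t := by ring
            omega
          rcases ih (S.filter fun i => ¬ x i ≤ y s)
            (fun i hi => hS i (Finset.mem_filter.1 hi).1) h2 with ⟨p, T, hTS, hT1, hT2⟩ |
            ⟨l, hl1, hl2, hl3⟩
          · exact Or.inl ⟨p, T, hTS.trans (Finset.filter_subset _ _), hT1, hT2⟩
          · right
            refine ⟨s :: l, by rw [List.length_cons, hl1], ?_, ?_⟩
            · intro a ha
              rcases List.mem_cons.1 ha with h3 | h3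
              · rw [h3]; exact hs
              · exact (Finset.mem_filter.1 (hl2 a h3)).1
            · rw [List.pairwise_cons]
              refine ⟨?_, hl3⟩
              intro a ha
              have := (Finset.mem_filter.1 (hl2 a ha)).2
              omega

/-- Links with a common point: a zigzag path. -/
theorem zigzag_path (hper : Per G f N) (hout : ∀ i, ¬ D (f i)) {L M : ℕ} {x y : ℕ → ℕ}
    {J : ℕ → List V} (h : LKS G f N D L M x y J) {m p : ℕ} {T : Finset ℕ}
    (hT : ∀ i ∈ T, i < M ∧ x i ≤ p ∧ p < y i) (hm : m * m < T.card) :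
    ∃ Z : List V, IsP G Z ∧ (m + 1) * L ≤ Z.length := by
  classical
  have hT0 : T.Nonempty := by
    rw [← Finset.card_pos]
    omega
  have hpN : p < N := by
    obtain ⟨i, hi⟩ := hT0
    have h1 := hT i hi
    have h2 := h.top i h1.1
    omega
  have hxinj : Set.InjOn x (T : Set ℕ) := by
    intro i hi j hj hij
    by_contra hne
    exact h.xx i (hT i hi).1 j (hT j hj).1 hne hij
  set X := T.image x with hX
  have hXc : X.card = T.card := Finset.card_image_of_injOn hxinj
  have hinv : ∀ v ∈ X, ∃ i ∈ T, x i = v := fun v hv => Finset.mem_image.1 hv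
  choose! inv hinv1 hinv2 using hinv
  set Ls := X.sort (fun a b => a ≤ b) with hLs
  have hLm : ∀ v, v ∈ Ls ↔ v ∈ X := fun v => Finset.mem_sort _
  have hLnd : Ls.Nodup := Finset.sort_nodup _ _
  have hLlt : Ls.Pairwise (fun a b => a < b) := by
    have h1 : Ls.Pairwise (fun a b => a ≤ b) := by
      exact Finset.pairwise_sort _ _
    refine (h1.and hLnd).imp ?_
    rintro a b ⟨h2, h3⟩
    omega
  have hLlen : Ls.length = T.card := by
    rw [hLs, Finset.length_sort, hXc]
  have hyinj : ∀ u ∈ Ls, ∀ w ∈ Ls, (fun v => y (inv v)) u = (fun v => y (inv v)) w → u = w := by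
    intro u hu w hw huw
    have hu' := (hLm u).1 hu
    have hw' := (hLm w).1 hw
    by_contra hne
    refine h.yy _ (hT _ (hinv1 u hu')).1 _ (hT _ (hinv1 w hw')).1 ?_ huw
    intro h1
    apply hne
    rw [← hinv2 u hu', ← hinv2 w hw', h1]
  have hA : IsP G (arc f 0 (p + 1)) := hper.arcP 0 (p + 1) (by omega)
  have hB : IsP G (arc f (p + 1) (N - (p + 1))) := hper.arcP (p + 1) _ (by omega)
  have hAB : ∀ v ∈ arc f 0 (p + 1), v ∉ arc f (p + 1) (N - (p + 1)) := by
    intro v hv hv2
    obtain ⟨k, hk, hk2⟩ := mem_arc.1 hv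
    obtain ⟨k', hk', hk2'⟩ := mem_arc.1 hv2
    exact hper.ne (i := 0 + k) (j := p + 1 + k') (by omega) (by omega) (hk2.trans hk2'.symm)
  have harcD : ∀ a n, ∀ v ∈ arc f a n, v ∉ {v | D v} := by
    intro a n v hv hv2
    obtain ⟨k, _, hk2⟩ := mem_arc.1 hv
    rw [← hk2] at hv2
    exact hout _ hv2
  -- the common part of the two cases
  have key : ∀ l : List ℕ, l.Sublist Ls → ∀ B : List V, IsP G B →
      (∀ v ∈ arc f 0 (p + 1), v ∉ B) → (∀ v ∈ B, v ∉ {v | D v}) →
      (l.map fun v => f (y (inv v))).Sublist B →
      ∃ Z : List V, IsP G Z ∧ l.length * L ≤ Z.length := by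
    intro l hl B hB hAB hBD hlB
    have hlX : ∀ v ∈ l, v ∈ X := fun v hv => (hLm v).1 (hl.subset hv)
    have hlM : ∀ v ∈ l, inv v < M := fun v hv => (hT _ (hinv1 v (hlX v hv))).1
    have hz : ZZ G L l.length {v | D v} (arc f 0 (p + 1)) B := by
      refine ZZ.of_sublist l.length (l.map fun v => (f v, J (inv v), f (y (inv v)))) _ _ _
        (by rw [List.length_map]) ?_ ?_ ?_ ?_
      · rw [List.map_map]
        refine arc_sublist f (p + 1) 0 l (hLlt.sublist hl) ?_
        intro v hv
        have h1 := (hT _ (hinv1 v (hlX v hv))).2.1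
        rw [hinv2 v (hlX v hv)] at h1
        omega
      · rw [List.map_map]
        exact hlB
      · intro q hq
        obtain ⟨v, hv, rfl⟩ := List.mem_map.1 hq
        have h1 := h.path (inv v) (hlM v hv)
        rw [hinv2 v (hlX v hv)] at h1
        refine ⟨h1.1, ?_, ?_, ?_⟩
        · exact (List.nodup_append'.1 (List.nodup_cons.1 h1.2).2).1
        · have := h.len (inv v) (hlM v hv)
          simp only
          omega
        · exact h.inD (inv v) (hlM v hv)
      · rw [List.pairwise_map]
        refine List.Pairwise.imp_of_mem ?_ (hLnd.sublist hl)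
        intro u w hu hw huw
        refine h.disj _ (hlM u hu) _ (hlM w hw) ?_
        intro h2
        apply huw
        rw [← hinv2 u (hlX u hu), ← hinv2 w (hlX w hw), h2]
    obtain ⟨Z, hZ1, _, hZ3, _⟩ := ZZ.path l.length {v | D v} _ _ hA hB hAB (harcD _ _) hBD hz
    exact ⟨Z, hZ1, hZ3⟩
  have hyr : ∀ v ∈ Ls, p + 1 ≤ y (inv v) ∧ y (inv v) < p + 1 + (N - (p + 1)) := by
    intro v hv
    have h1 := hT _ (hinv1 v ((hLm v).1 hv))
    have h2 := h.top _ h1.1
    omega
  rcases es (fun v => y (inv v)) m m Ls hLnd hyinj (by rw [hLlen]; exact hm) with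
    ⟨l, hl, hlen, hpw⟩ | ⟨l, hl, hlen, hpw⟩
  · obtain ⟨Z, hZ, hZl⟩ := key l hl _ hB hAB (harcD _ _) (by
      have h1 := arc_sublist f (N - (p + 1)) (p + 1) (l.map fun v => y (inv v)) (by
        rw [List.pairwise_map]
        exact hpw) (by
        intro z hz
        obtain ⟨v, hv, rfl⟩ := List.mem_map.1 hz
        exact hyr v (hl.subset hv))
      rw [List.map_map] at h1
      exact h1)
    rw [hlen] at hZl
    exact ⟨Z, hZ, hZl⟩
  · obtain ⟨Z, hZ, hZl⟩ := key l hl (arc f (p + 1) (N - (p + 1))).reverse
      ⟨isChain_reverse' G hB.1, List.nodup_reverse.2 hB.2⟩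
      (fun v hv hv2 => hAB v hv (List.mem_reverse.1 hv2))
      (fun v hv => harcD _ _ v (List.mem_reverse.1 hv)) (by
      have h1 := arc_sublist f (N - (p + 1)) (p + 1) (l.reverse.map fun v => y (inv v)) (by
        rw [List.pairwise_map, List.pairwise_reverse]
        exact hpw) (by
        intro z hz
        obtain ⟨v, hv, rfl⟩ := List.mem_map.1 hz
        exact hyr v (hl.subset (List.mem_reverse.1 hv)))
      rw [List.map_map] at h1
      have h2 := h1.reverse
      rw [← List.map_reverse, List.reverse_reverse] at h2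
      exact h2)
    rw [hlen] at hZl
    exact ⟨Z, hZ, hZl⟩

/-- `m^3` disjoint links with `L` inner vertices each give a path with `m L` vertices. -/
theorem Long (h : Big G f N D β) {L M m : ℕ} {x y : ℕ → ℕ} {J : ℕ → List V}
    (hl : LKS G f N D L M x y J) (hM : m ^ 3 ≤ M) (hm : N + β < m * L) : False := by
  have hm0 : 0 < m := by
    rcases Nat.eq_zero_or_pos m with h0 | h0
    · subst h0
      omega
    · exact h0
  obtain ⟨m', rfl⟩ : ∃ m', m = m' + 1 := ⟨m - 1, by omega⟩
  rcases intervals hl.lt hl.xy ((m' + 1) ^ 2) (m' + 1) (Finset.range M)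
      (fun i hi => Finset.mem_range.1 hi) (by
        rw [Finset.card_range]
        calc (m' + 1) * (m' + 1) ^ 2 = (m' + 1) ^ 3 := by ring
          _ ≤ M := hM) with ⟨p, T, hTS, hT1, hT2⟩ | ⟨l, hl1, hl2, hl3⟩
  · obtain ⟨Z, hZ, hZl⟩ := zigzag_path h.per h.out hl (m := m') (p := p) (T := T)
      (fun i hi => ⟨Finset.mem_range.1 (hTS hi), hT2 i hi⟩) (by nlinarith)
    have := h.top Z hZ
    omega
  · cases l with
    | nil => simp at hl1
    | cons i l =>
        obtain ⟨Z, hZ1, hZ2, _⟩ := chain_path h.per h.out hl l i
          (fun a ha => Finset.mem_range.1 (hl2 a ha)) hl3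
        have h1 := h.top _ hZ1
        rw [List.length_cons] at hl1 h1
        rw [hl1] at hZ2
        omega

end Pool.Agent.Helper99.PP
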